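import Mathlib
import Pool.Agent.Helper51.LT.St2
import Pool.Agent.Helper71.TU.X5aux

set_option autoImplicit false

/-!
# Module ST0 of project LT: perturbation by a monomial (the case `α < -1`)
-/

namespace Pool.Agent.Helper61.LT

open Complex MeasureTheory Set Metric Filter Topology
open scoped Real ENNReal
open Pool.Agent.Helper51.LT
open Pool.Agent.Helper60.Rel (LH tc)

theorem cm_int {H : ℂ → ℂ} {r : ℝ} (hr : 0 < r) (hr1 : r < 1) (n : ℕ)
    (hH : DifferentiableOn ℂ H (ball 0 1)) :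
    IntervalIntegrable (fun t => H (circleMap 0 r t) * (circleMap 0 r t ^ n)⁻¹) volume 0 (2 * π) := by
  apply Continuous.intervalIntegrable
  have h1 : Continuous (circleMap (0 : ℂ) r) := continuous_circleMap 0 r
  have h2 : Continuous (fun t => H (circleMap 0 r t)) := by
    apply hH.continuousOn.comp_continuous h1
    intro t
    rw [mem_ball_zero_iff, norm_circleMap_zero, abs_of_pos hr]
    exact hr1
  have h3 : Continuous (fun t => (circleMap (0 : ℂ) r t ^ n)⁻¹) := by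
    apply (h1.pow n).inv₀
    intro t
    exact pow_ne_zero _ (circleMap_ne_center hr.ne')
  exact h2.mul h3

theorem tcf_half (hTcf : StTcf) {F : ℂ → ℂ} (hF : DifferentiableOn ℂ F (ball 0 1)) (n : ℕ) :
    tc F n = (2 * π)⁻¹ * ∫ t in (0 : ℝ)..(2 * π),
      F (circleMap 0 (1 / 2) t) * (circleMap 0 (1 / 2) t ^ n)⁻¹ :=
  hTcf F (1 / 2) n (by norm_num)
    (hF.mono (closedBall_subset_ball (by norm_num))) ⟨1, by norm_num, hF⟩

/-- coefficients of functions which are close -/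
theorem tc_close (hTcf : StTcf) {F G : ℂ → ℂ} (hF : DifferentiableOn ℂ F (ball 0 1))
    (hG : DifferentiableOn ℂ G (ball 0 1)) (n : ℕ) {η : ℝ}
    (h : ∀ z : ℂ, ‖z‖ ≤ 1 / 2 → ‖F z - G z‖ ≤ η) : ‖tc F n - tc G n‖ ≤ η * 2 ^ n := by
  have hpi := Real.pi_pos
  rw [tcf_half hTcf hF, tcf_half hTcf hG, ← mul_sub,
    ← intervalIntegral.integral_sub (cm_int (by norm_num) (by norm_num) n hF)
      (cm_int (by norm_num) (by norm_num) n hG)]
  have h1 : ‖∫ t in (0 : ℝ)..(2 * π), (F (circleMap 0 (1 / 2) t) * (circleMap 0 (1 / 2) t ^ n)⁻¹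
      - G (circleMap 0 (1 / 2) t) * (circleMap 0 (1 / 2) t ^ n)⁻¹)‖ ≤ (η * 2 ^ n) * |2 * π - 0| := by
    apply intervalIntegral.norm_integral_le_of_norm_le_const
    intro t _
    rw [← sub_mul, norm_mul, norm_inv, norm_pow, norm_circleMap_zero]
    have e : (|(1 / 2 : ℝ)| ^ n)⁻¹ = 2 ^ n := by
      rw [abs_of_pos (by norm_num)]
      rw [← inv_pow]; norm_num
    rw [e]
    apply mul_le_mul_of_nonneg_right _ (by positivity)
    apply h
    rw [norm_circleMap_zero, abs_of_pos (by norm_num)]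
  rw [norm_mul]
  have e2 : ‖(((2 * π)⁻¹ : ℝ) : ℂ)‖ = (2 * π)⁻¹ := by
    rw [Complex.norm_real, Real.norm_eq_abs, abs_of_pos (by positivity)]
  rw [e2]
  have e3 : |2 * π - 0| = 2 * π := by rw [sub_zero, abs_of_pos (by positivity)]
  rw [e3] at h1
  calc (2 * π)⁻¹ * _ ≤ (2 * π)⁻¹ * ((η * 2 ^ n) * (2 * π)) := by gcongr
    _ = η * 2 ^ n := by field_simp

/-- the coefficient of the perturbed function -/
theorem tc_add_mono (hTcf : StTcf) {F : ℂ → ℂ} (hF : DifferentiableOn ℂ F (ball 0 1)) (n : ℕ)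
    (c : ℂ) : tc (fun z => F z + c * z ^ n) n = tc F n + c := by
  have hpi := Real.pi_pos
  have hG : DifferentiableOn ℂ (fun z : ℂ => F z + c * z ^ n) (ball 0 1) :=
    hF.add (by fun_prop)
  have hM : DifferentiableOn ℂ (fun z : ℂ => c * z ^ n) (ball 0 1) := by fun_prop
  rw [tcf_half hTcf hG, tcf_half hTcf hF]
  have e1 : ∀ t : ℝ, (F (circleMap 0 (1 / 2) t) + c * circleMap 0 (1 / 2) t ^ n)
      * (circleMap 0 (1 / 2) t ^ n)⁻¹
      = F (circleMap 0 (1 / 2) t) * (circleMap 0 (1 / 2) t ^ n)⁻¹ + c := by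
    intro t
    have : circleMap (0 : ℂ) (1 / 2) t ^ n ≠ 0 :=
      pow_ne_zero _ (circleMap_ne_center (by norm_num))
    field_simp
  simp_rw [e1]
  rw [intervalIntegral.integral_add (cm_int (by norm_num) (by norm_num) n hF)
    (by simp)]
  rw [mul_add]
  congr 1
  rw [intervalIntegral.integral_const, sub_zero]
  have : (2 * (π : ℂ)) ≠ 0 := by
    have : (π : ℂ) ≠ 0 := by exact_mod_cast hpi.ne'
    simp
  rw [Complex.real_smul]
  push_cast
  field_simp

theorem pow_bd {T : ℕ} (hT : 1 ≤ T) {z : ℂ} (hz : ‖z‖ ≤ 1 + 1 / (T : ℝ)) :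
    ‖z‖ ^ (T - 1) ≤ 3 := by
  have hT0 : (0 : ℝ) < T := by exact_mod_cast hT
  have h1 : ‖z‖ ^ (T - 1) ≤ (1 + 1 / (T : ℝ)) ^ (T - 1) := pow_le_pow_left₀ (norm_nonneg _) hz _
  have h2 : (1 + 1 / (T : ℝ)) ^ (T - 1) ≤ (1 + 1 / (T : ℝ)) ^ T :=
    pow_le_pow_right₀ (by have : 0 < 1 / (T : ℝ) := by positivity
                          linarith) (Nat.sub_le _ _)
  have h3 : (1 + 1 / (T : ℝ)) ^ T ≤ Real.exp 1 := by
    have h4 : 1 + 1 / (T : ℝ) ≤ Real.exp (1 / (T : ℝ)) := by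
      have := Real.add_one_le_exp (1 / (T : ℝ))
      linarith
    calc (1 + 1 / (T : ℝ)) ^ T ≤ (Real.exp (1 / (T : ℝ))) ^ T :=
          pow_le_pow_left₀ (by positivity) h4 _
      _ = Real.exp 1 := by
          rw [← Real.exp_nat_mul]
          congr 1
          field_simp
  have h5 := Real.exp_one_lt_d9
  linarith

theorem mono_lip {T : ℕ} (hT : 1 ≤ T) {ε : ℝ} (hε : 0 ≤ ε) {z w : ℂ}
    (hz : z ∈ ball (0 : ℂ) (1 + 1 / (T : ℝ))) (hw : w ∈ ball (0 : ℂ) (1 + 1 / (T : ℝ))) :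
    ‖((ε / T : ℝ) : ℂ) * w ^ T - ((ε / T : ℝ) : ℂ) * z ^ T‖ ≤ 3 * ε * ‖w - z‖ := by
  have hT0 : (0 : ℝ) < T := by exact_mod_cast hT
  have hT0' : (T : ℂ) ≠ 0 := by exact_mod_cast hT0.ne'
  apply Convex.norm_image_sub_le_of_norm_hasDerivWithin_le
    (f := fun z : ℂ => ((ε / T : ℝ) : ℂ) * z ^ T) (f' := fun z : ℂ => (ε : ℂ) * z ^ (T - 1))
    (s := ball (0 : ℂ) (1 + 1 / (T : ℝ))) _ _ (convex_ball _ _) hz hw
  · intro x _
    have h1 : HasDerivAt (fun z : ℂ => z ^ T) ((T : ℂ) * x ^ (T - 1)) x := hasDerivAt_pow T x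
    have h2 := h1.const_mul ((ε / T : ℝ) : ℂ)
    have e : ((ε / T : ℝ) : ℂ) * ((T : ℂ) * x ^ (T - 1)) = (ε : ℂ) * x ^ (T - 1) := by
      push_cast
      field_simp
    rw [e] at h2
    exact h2.hasDerivWithinAt
  · intro x hx
    rw [mem_ball_zero_iff] at hx
    rw [norm_mul, norm_pow, Complex.norm_real, Real.norm_eq_abs, abs_of_nonneg hε]
    have := pow_bd hT hx.le
    nlinarith

theorem hSt0 (hKoe : StKoe) (hTcf : StTcf) : StSt0 := by
  rintro α N hN hα f ⟨⟨R, hR1, hUn⟩, hf0, hSy⟩ η r j hη hr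
  have hpi := Real.pi_pos
  set R' : ℝ := min R 2 with hR'
  have hR'1 : 1 < R' := lt_min hR1 (by norm_num)
  have hR'R : R' ≤ R := min_le_left _ _
  have hR'2 : R' ≤ 2 := min_le_right _ _
  set e : ℝ := (R' - 1) / 2 with he
  have he0 : 0 < e := by rw [he]; linarith
  have he1 : e ≤ 1 / 2 := by rw [he]; linarith
  set ρ : ℝ := 1 + e with hρ
  have hρ1 : 1 < ρ := by rw [hρ]; linarith
  have hρR : ρ < R := by rw [hρ]; linarith
  have hcb : closedBall (0 : ℂ) ρ ⊆ ball 0 R := closedBall_subset_ball hρR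
  have hfcont : ContinuousOn f (closedBall 0 ρ) := hUn.1.continuousOn.mono hcb
  have hdcont : ContinuousOn (deriv f) (closedBall 0 ρ) :=
    (hUn.1.deriv isOpen_ball).continuousOn.mono hcb
  have hcomp : IsCompact (closedBall (0 : ℂ) ρ) := isCompact_closedBall _ _
  have hne : (closedBall (0 : ℂ) ρ).Nonempty := ⟨0, by simp; linarith⟩
  -- minimum of the derivative
  obtain ⟨z₀, hz₀, hmin⟩ := hcomp.exists_isMinOn hne hdcont.norm
  set c : ℝ := ‖deriv f z₀‖ with hc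
  have hc0 : 0 < c := by
    rw [hc, norm_pos_iff]
    exact Pool.TU.X5.deriv_ne_zero_of_injOn isOpen_ball hUn.1 hUn.2 (hcb hz₀)
  have hcmin : ∀ z ∈ closedBall (0 : ℂ) ρ, c ≤ ‖deriv f z‖ := fun z hz => hmin hz
  -- maximum of f
  obtain ⟨b₀, hb₀⟩ := hcomp.exists_bound_of_continuousOn hfcont
  set b : ℝ := max b₀ 0 with hb
  have hb0 : 0 ≤ b := le_max_right _ _
  have hbf : ∀ z ∈ closedBall (0 : ℂ) ρ, ‖f z‖ ≤ b := fun z hz => (hb₀ z hz).trans (le_max_left _ _)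
  set κ : ℝ := c * e / 16 with hκ
  have hκ0 : 0 < κ := by rw [hκ]; positivity
  have hexp : ∀ z ∈ closedBall (0 : ℂ) ρ, ∀ w ∈ closedBall (0 : ℂ) ρ,
      κ * ‖w - z‖ ≤ ‖f w - f z‖ := by
    intro z hz w hw
    have hsub : ball z e ⊆ ball (0 : ℂ) R := by
      intro x hx
      rw [mem_ball_zero_iff]
      rw [mem_ball, dist_eq_norm] at hx
      rw [mem_closedBall_zero_iff] at hz
      have : ‖x‖ ≤ ‖x - z‖ + ‖z‖ := by
        calc ‖x‖ = ‖(x - z) + z‖ := by ring_nf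
          _ ≤ _ := norm_add_le _ _
      have hRe : ρ + e = R' := by rw [hρ, he]; ring
      linarith
    have h1 := hKoe f (ball 0 R) z e he0 hsub isOpen_ball hUn w (hcb hw)
    have h2 : ‖w - z‖ ≤ 4 := by
      rw [mem_closedBall_zero_iff] at hz hw
      calc ‖w - z‖ ≤ ‖w‖ + ‖z‖ := norm_sub_le _ _
        _ ≤ 4 := by linarith
    have h3 : e / 4 * ‖w - z‖ ≤ min ‖w - z‖ e := by
      apply le_min
      · have := norm_nonneg (w - z)
        nlinarith
      · nlinarith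
    have h4 : c * (e / 4 * ‖w - z‖) ≤ ‖deriv f z‖ * min ‖w - z‖ e :=
      mul_le_mul (hcmin z hz) h3 (by positivity) (norm_nonneg _)
    rw [hκ]
    linarith
  set ε : ℝ := min (κ / 4) η / 3 with hε
  have hε0 : 0 < ε := by rw [hε]; have : 0 < min (κ / 4) η := lt_min (by positivity) hη
                         linarith
  have hεκ : 3 * ε < κ := by
    have : min (κ / 4) η ≤ κ / 4 := min_le_left _ _
    rw [hε]; linarith
  have hεη : ε ≤ η := by
    have : min (κ / 4) η ≤ η := min_le_right _ _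
    rw [hε]; linarith
  -- choice of T
  have ev1 : ∀ᶠ T : ℕ in atTop, 1 / (T : ℝ) < e :=
    (tendsto_one_div_atTop_nhds_zero_nat (𝕜 := ℝ)).eventually (gt_mem_nhds he0)
  have ev2 : ∀ᶠ T : ℕ in atTop, (T : ℝ) * (ρ⁻¹) ^ T * b < ε / 2 := by
    have h1 := (tendsto_self_mul_const_pow_of_lt_one (r := ρ⁻¹) (by positivity)
      (inv_lt_one_of_one_lt₀ hρ1)).mul_const b
    rw [zero_mul] at h1
    exact h1.eventually (gt_mem_nhds (by positivity))
  have ev3 : ∀ᶠ T : ℕ in atTop, ((j : ℝ) + 1) * (T : ℝ) ^ (-(-(1 + α))) < ε / 2 := by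
    have h1 := ((tendsto_rpow_neg_atTop (y := -(1 + α)) (by linarith)).comp
      tendsto_natCast_atTop_atTop).const_mul ((j : ℝ) + 1)
    rw [mul_zero] at h1
    exact h1.eventually (gt_mem_nhds (by positivity))
  have ev4 : ∀ᶠ T : ℕ in atTop, j ≤ T := eventually_ge_atTop j
  have htend : Tendsto (fun q : ℕ => N * q + 1) atTop atTop := by
    apply tendsto_atTop_mono (f := fun q : ℕ => q) _ tendsto_id
    intro q
    show q ≤ N * q + 1
    nlinarith
  obtain ⟨q, ⟨⟨hq1, hq2⟩, hq3⟩, hq4⟩ :=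
    (htend.eventually (((ev1.and ev2).and ev3).and ev4)).exists
  set T : ℕ := N * q + 1 with hT
  have hT1 : 1 ≤ T := by omega
  have hT0 : (0 : ℝ) < T := by exact_mod_cast hT1
  have hT0' : (T : ℂ) ≠ 0 := by exact_mod_cast hT0.ne'
  have hball : ball (0 : ℂ) (1 + 1 / (T : ℝ)) ⊆ closedBall 0 ρ := by
    apply ball_subset_closedBall.trans
    apply closedBall_subset_closedBall
    rw [hρ]; linarith
  have h1T : (1 : ℝ) < 1 + 1 / (T : ℝ) := by
    have : 0 < 1 / (T : ℝ) := by positivity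
    linarith
  set f₁ : ℂ → ℂ := fun z => f z + ((ε / T : ℝ) : ℂ) * z ^ T with hf₁
  have hf1 : DifferentiableOn ℂ f (ball 0 1) := hUn.1.mono (ball_subset_ball hR1.le)
  have hf₁d : DifferentiableOn ℂ f₁ (ball 0 (1 + 1 / (T : ℝ))) := by
    apply (hUn.1.mono (hball.trans hcb)).add
    fun_prop
  have hf₁d1 : DifferentiableOn ℂ f₁ (ball 0 1) := hf₁d.mono (ball_subset_ball h1T.le)
  have hclose : ∀ z ∈ ball (0 : ℂ) 1, ‖f₁ z - f z‖ ≤ ε := by
    intro z hz
    rw [mem_ball_zero_iff] at hz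
    have e1 : f₁ z - f z = ((ε / T : ℝ) : ℂ) * z ^ T := by
      show f z + ((ε / T : ℝ) : ℂ) * z ^ T - f z = _
      ring
    rw [e1, norm_mul, norm_pow, Complex.norm_real, Real.norm_eq_abs, abs_of_pos (by positivity)]
    have h1 : ‖z‖ ^ T ≤ 1 := pow_le_one₀ (norm_nonneg _) hz.le
    have h2 : ε / T ≤ ε := div_le_self hε0.le (by exact_mod_cast hT1)
    calc ε / T * ‖z‖ ^ T ≤ ε / T * 1 := by gcongr
      _ ≤ ε := by linarith
  refine ⟨f₁, ⟨⟨1 + 1 / (T : ℝ), h1T, hf₁d, ?_⟩, ?_, ?_⟩, ?_, ?_⟩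
  · -- injective
    intro z hz w hw hzw
    by_contra hne'
    have h1 := hexp z (hball hz) w (hball hw)
    have h2 := mono_lip hT1 hε0.le hz hw
    have h3 : f w - f z = -(((ε / T : ℝ) : ℂ) * w ^ T - ((ε / T : ℝ) : ℂ) * z ^ T) := by
      have : f z + ((ε / T : ℝ) : ℂ) * z ^ T = f w + ((ε / T : ℝ) : ℂ) * w ^ T := hzw
      linear_combination -this
    rw [h3, norm_neg] at h1
    have h4 : 0 < ‖w - z‖ := by
      rw [norm_pos_iff, sub_ne_zero]
      exact fun h => hne' h.symm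
    nlinarith
  · -- value at zero
    rw [hf₁]
    simp only
    rw [hf0, zero_pow (by omega), mul_zero, add_zero]
  · -- symmetry
    intro ω z hω hz
    rw [hf₁]
    simp only
    rw [hSy ω z hω hz]
    have : (ω * z) ^ T = ω * z ^ T := by
      rw [mul_pow, hT, pow_succ, pow_mul, hω, one_pow, one_mul]
    rw [this]
    ring
  · -- close
    intro z hz
    have : z ∈ ball (0 : ℂ) 1 := by
      rw [mem_ball_zero_iff]; linarith
    exact (hclose z this).trans hεη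
  · -- robust
    have hTa : 0 < (T : ℝ) ^ α := by positivity
    refine ⟨(T : ℝ) ^ α / (2 * 2 ^ T), by positivity, 1 / 2, by norm_num, by norm_num, ?_⟩
    intro F hF hFc
    refine ⟨T, hq4, ?_⟩
    have h1 := tc_close hTcf hF hf₁d1 T hFc
    have h2 : (T : ℝ) ^ α / (2 * 2 ^ T) * 2 ^ T = (T : ℝ) ^ α / 2 := by
      field_simp
    rw [h2] at h1
    have h3 : tc f₁ T = tc f T + ((ε / T : ℝ) : ℂ) := tc_add_mono hTcf hf1 T _
    -- Cauchy estimate
    have h4 : ‖tc f T‖ ≤ b * (ρ⁻¹) ^ T := by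
      rw [hTcf f ρ T (by linarith) (hUn.1.mono hcb) ⟨R, hρR, hUn.1⟩]
      have h5 : ‖∫ t in (0 : ℝ)..(2 * π), f (circleMap 0 ρ t) * (circleMap 0 ρ t ^ T)⁻¹‖
          ≤ (b * (ρ⁻¹) ^ T) * |2 * π - 0| := by
        apply intervalIntegral.norm_integral_le_of_norm_le_const
        intro t _
        have hρ0 : 0 < ρ := by linarith
        rw [norm_mul, norm_inv, norm_pow, norm_circleMap_zero, abs_of_pos hρ0, inv_pow]
        apply mul_le_mul_of_nonneg_right _ (by positivity)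
        apply hbf
        rw [mem_closedBall_zero_iff, norm_circleMap_zero, abs_of_pos hρ0]
      rw [norm_mul]
      have e2 : ‖(((2 * π)⁻¹ : ℝ) : ℂ)‖ = (2 * π)⁻¹ := by
        rw [Complex.norm_real, Real.norm_eq_abs, abs_of_pos (by positivity)]
      rw [e2]
      have e3 : |2 * π - 0| = 2 * π := by rw [sub_zero, abs_of_pos (by positivity)]
      rw [e3] at h5
      calc (2 * π)⁻¹ * _ ≤ (2 * π)⁻¹ * ((b * (ρ⁻¹) ^ T) * (2 * π)) := by gcongr
        _ = b * (ρ⁻¹) ^ T := by field_simp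
    have h6 : b * (ρ⁻¹) ^ T < ε / (2 * T) := by
      rw [lt_div_iff₀ (by positivity)]
      nlinarith
    have h7 : ε / (2 * T) < ‖tc f₁ T‖ := by
      have h8 : ‖((ε / T : ℝ) : ℂ)‖ = ε / T := by
        rw [Complex.norm_real, Real.norm_eq_abs, abs_of_pos (by positivity)]
      have h9 : ((ε / T : ℝ) : ℂ) = tc f₁ T - tc f T := by rw [h3]; ring
      have h10 : ε / T ≤ ‖tc f₁ T‖ + ‖tc f T‖ := by
        rw [← h8, h9]
        exact norm_sub_le _ _
      have h11 : ε / T = ε / (2 * T) + ε / (2 * T) := by field_simp; norm_num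
      linarith
    have h12 : ((j : ℝ) + 1) * (T : ℝ) ^ α < ε / (2 * T) := by
      have e4 : (T : ℝ) ^ (-(-(1 + α))) = T * (T : ℝ) ^ α := by
        rw [neg_neg, Real.rpow_add hT0, Real.rpow_one]
      rw [e4] at hq3
      rw [lt_div_iff₀ (by positivity)]
      nlinarith
    have h13 : ‖tc f₁ T‖ ≤ ‖tc F T - tc f₁ T‖ + ‖tc F T‖ := by
      calc ‖tc f₁ T‖ = ‖tc F T - (tc F T - tc f₁ T)‖ := by ring_nf
        _ ≤ ‖tc F T‖ + ‖tc F T - tc f₁ T‖ := norm_sub_le _ _
        _ = _ := add_comm _ _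
    nlinarith

end Pool.Agent.Helper61.LT
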