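import Mathlib
import Pool.Agent.Helper51.LT.St
import Pool.Agent.Helper60.Rel.Omega

set_option autoImplicit false

/-!
# Module OME of project LT: weights of a level set in an arc
-/

namespace Pool.Agent.Helper61.LT

open Complex MeasureTheory Set Metric
open scoped Real ENNReal
open Pool.Agent.Helper51.LT
open Pool.Agent.Helper60.Rel

theorem real_round {x : ℝ} : |x - (round x : ℝ)| ≤ 1 / 2 := abs_sub_round x

theorem norm_le_of_round {z : ℂ} (h1 : |z.re| ≤ 1 / 2) (h2 : |z.im| ≤ 1 / 2) : ‖z‖ ≤ 1 := by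
  calc ‖z‖ ≤ |z.re| + |z.im| := Complex.norm_le_abs_re_add_abs_im z
    _ ≤ 1 := by linarith

theorem hOme (hCay : StCay) (hLim : StLim) : StOme := by
  intro f G lam δ C₀ h hδ0 hδ1 hC₀ hUnf
  obtain ⟨C₂, hC₂, hcay⟩ := hCay
  obtain ⟨C, hC0, hC⟩ := hLim f G lam h
  refine ⟨4 * 482 * 8 * (2 * C + 107) * C₂ * C₀, by positivity, ?_⟩
  intro n hn A j ρ k hρ hA hlev
  have h0 : (0 : ℝ) < n := by positivity
  have hn1 : (1 : ℝ) ≤ n := by exact_mod_cast hn
  have hρ0 : 0 < ρ := lt_of_lt_of_le (by positivity) hρ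
  have hpi := Real.pi_pos
  have hlog0 : 0 ≤ Real.log n := Real.log_nonneg hn1
  have hUn : Un G LH := ⟨h.Gdiff, h.Ginj⟩
  set R : Set ℂ := ⋃ i ∈ A, Box n i with hR
  have hRm : MeasurableSet R := A.measurableSet_biUnion (fun i _ => measurableSet_Box n i)
  have hRstrip : R ⊆ {ζ : ℂ | ζ.re < 0 ∧ 0 ≤ ζ.im ∧ ζ.im < 2 * π} := by
    rw [hR]
    exact iUnion₂_subset (fun i _ => Box_subset_strip hn i.2)
  have hRre : ∀ ζ ∈ R, -(1 / (n : ℝ)) < ζ.re ∧ ζ.re ≤ -(1 / (2 * (n : ℝ))) := by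
    intro ζ hζ
    rw [hR, mem_iUnion₂] at hζ
    obtain ⟨i, hi, hζi⟩ := hζ
    exact ⟨hζi.1, hζi.2.1⟩
  have hRlev : ∀ ζ ∈ R, (G ζ).re ∈ Icc (k - 240) (k + 241) := by
    intro ζ hζ
    rw [hR, mem_iUnion₂] at hζ
    obtain ⟨i, hi, hζi⟩ := hζ
    have h1 := abs_le.1 (h.box_re hn hζi)
    have h2 := hlev i hi
    constructor
    · linarith [h1.1, h2.1]
    · linarith [h1.2, h2.2]
  have hint : ∀ i ∈ A, IntegrableOn (fun ζ => ‖deriv G ζ‖) (Box n i) := by
    intro i _
    exact (rectC h.contW (box_le hn) (box_right_neg hn) (th_mono (Nat.le_succ _))).1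
  have hRint : IntegrableOn (fun ζ => ‖deriv G ζ‖) R :=
    (integrableOn_finset_iUnion).2 hint
  have hsum : ∑ i ∈ A, om G n i = n * ∫ ζ in R, ‖deriv G ζ‖ := by
    unfold om
    rw [← Finset.mul_sum, hR, integral_biUnion_finset A (fun i _ => measurableSet_Box n i) _ hint]
    intro i _ j _ hij
    exact Box_disjoint n (fun hc => hij (Fin.ext hc))
  -- covering
  set t : ℝ := min 1 (8 * ρ) with ht
  have ht1 : t ≤ 1 := min_le_left _ _
  have htn : 1 / (n : ℝ) ≤ t := by
    apply le_min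
    · rw [div_le_one h0]; exact hn1
    · linarith
  have ht0 : 0 < t := lt_of_lt_of_le (by positivity) htn
  have ht8 : t ≤ 8 * ρ := min_le_right _ _
  obtain ⟨c, hcov⟩ : ∃ c : Fin 4 → ℝ, R ⊆ ⋃ m : Fin 4,
      RC (-(1 / (n : ℝ))) (-(1 / (2 * (n : ℝ)))) (c m - t) (c m + t) := by
    rcases le_or_gt (8 * ρ) 1 with h8 | h8
    · refine ⟨fun m => th n j + 2 * π * ((m : ℕ) - 1), ?_⟩
      intro ζ hζ
      rw [hR, mem_iUnion₂] at hζ
      obtain ⟨i, hi, hζi⟩ := hζ
      obtain ⟨m, hm⟩ := chord_round i.2 j.2 (hA i hi)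
      rw [mem_iUnion]
      refine ⟨m, hζi.1, hζi.2.1, ?_, ?_⟩
      · rw [abs_le] at hm
        have h3 := hζi.2.2.1
        have h4 : t = 8 * ρ := by rw [ht, min_eq_right h8]
        rw [h4]
        have := Real.pi_lt_d2
        nlinarith [hm.1]
      · rw [abs_le] at hm
        have h3 := hζi.2.2.2
        rw [th_succ hn] at h3
        have h4 : t = 8 * ρ := by rw [ht, min_eq_right h8]
        rw [h4]
        have h5 : 2 * π / n ≤ 2 * π * ρ := by
          rw [div_eq_mul_one_div]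
          exact mul_le_mul_of_nonneg_left hρ (by positivity)
        have := Real.pi_lt_d2
        nlinarith [hm.2]
    · refine ⟨fun m => 2 * (m : ℕ) + 1, ?_⟩
      intro ζ hζ
      have h4 : t = 1 := by rw [ht, min_eq_left h8.le]
      have hst := hRstrip hζ
      obtain ⟨_, s1, s2⟩ := hst
      have hbox : ∃ i ∈ A, ζ ∈ Box n i := by
        rw [hR, mem_iUnion₂] at hζ
        obtain ⟨i, hi, hζi⟩ := hζ
        exact ⟨i, hi, hζi⟩
      obtain ⟨i, _, hζi⟩ := hbox
      rw [mem_iUnion]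
      have hp := Real.pi_lt_d2
      have hfl : ⌊ζ.im / 2⌋₊ < 4 := by
        rw [Nat.floor_lt (by linarith)]
        push_cast
        linarith
      refine ⟨⟨⌊ζ.im / 2⌋₊, hfl⟩, hζi.1, hζi.2.1, ?_, ?_⟩
      · rw [h4]
        simp only
        have := Nat.floor_le (by linarith : 0 ≤ ζ.im / 2)
        linarith
      · rw [h4]
        simp only
        have := Nat.lt_floor_add_one (ζ.im / 2)
        linarith
  -- the size of `G` on `R`
  set Y : ℝ := C + 30 * Real.log (2 * n) with hY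
  have hlog2n : 0 ≤ Real.log (2 * n) := Real.log_nonneg (by linarith)
  have hY0 : 0 ≤ Y := by rw [hY]; positivity
  have hGY : ∀ ζ ∈ R, ‖G ζ‖ ≤ Y := by
    intro ζ hζ
    obtain ⟨r1, r2⟩ := hRre ζ hζ
    obtain ⟨s0, s1, s2⟩ := hRstrip hζ
    have hp := Real.pi_lt_d2
    have hinv : 1 / (n : ℝ) ≤ 1 := by rw [div_le_one h0]; exact hn1
    have h1 := hC ζ (by linarith) s0 (by linarith) (by linarith)
    refine h1.trans ?_
    rw [hY]
    have h2 : Real.log (1 / (-ζ.re)) ≤ Real.log (2 * n) := by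
      have h3 : 0 < -ζ.re := by linarith
      apply Real.log_le_log (by positivity)
      rw [div_le_iff₀ h3]
      have h4 : 1 / (2 * (n : ℝ)) ≤ -ζ.re := by linarith
      rw [div_le_iff₀ (by positivity)] at h4
      linarith
    linarith
  set N : ℕ := ⌈Y⌉₊ + 1 with hN
  have hNle : (N : ℝ) ≤ Y + 2 := by
    rw [hN]; push_cast
    have := Nat.ceil_lt_add_one hY0
    linarith
  let S : Fin 4 × Fin 482 × Fin (2 * N + 1) → Set ℂ := fun q =>
    {ζ : ℂ | -(1 / (n : ℝ)) ≤ ζ.re ∧ ζ.re ≤ -(1 / (n : ℝ) / 2) ∧ |ζ.im - c q.1| ≤ t ∧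
      ‖G ζ - (((k - 240 + (q.2.1 : ℕ) : ℝ) : ℂ) + (((q.2.2 : ℕ) : ℝ) - (N : ℝ) : ℝ) * I)‖ ≤ 1}
  have hcovS : R ⊆ ⋃ q, S q := by
    intro ζ hζ
    obtain ⟨r1, r2⟩ := hRre ζ hζ
    have hm := hcov hζ
    rw [mem_iUnion] at hm
    obtain ⟨m, _, _, m1, m2⟩ := hm
    have hl := hRlev ζ hζ
    have hg := hGY ζ hζ
    have him : |(G ζ).im| ≤ Y := (Complex.abs_im_le_norm _).trans hg
    set x : ℝ := (G ζ).re - (k - 240) with hx
    have hx0 : 0 ≤ x := by rw [hx]; linarith [hl.1]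
    have hx1 : x ≤ 481 := by rw [hx]; linarith [hl.2]
    have hrx := abs_le.1 (real_round (x := x))
    have hrx0 : 0 ≤ round x := by
      by_contra hlt
      have : round x ≤ -1 := by omega
      have : (round x : ℝ) ≤ -1 := by exact_mod_cast this
      linarith [hrx.2]
    have hrx1 : round x ≤ 481 := by
      by_contra hlt
      have : 482 ≤ round x := by omega
      have : (482 : ℝ) ≤ round x := by exact_mod_cast this
      linarith [hrx.1]
    set y : ℝ := (G ζ).im with hy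
    have hry := abs_le.1 (real_round (x := y))
    have hy2 := abs_le.1 him
    have hceil : Y ≤ (⌈Y⌉₊ : ℝ) := Nat.le_ceil Y
    have hNr : (N : ℝ) = (⌈Y⌉₊ : ℝ) + 1 := by rw [hN]; push_cast; ring
    have hry0 : -(N : ℤ) ≤ round y := by
      by_contra hlt
      have h1 : round y ≤ -(N : ℤ) - 1 := by omega
      have h2 : (round y : ℝ) ≤ -(N : ℝ) - 1 := by exact_mod_cast h1
      linarith [hry.2]
    have hry1 : round y ≤ (N : ℤ) := by
      by_contra hlt
      have h1 : (N : ℤ) + 1 ≤ round y := by omega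
      have h2 : (N : ℝ) + 1 ≤ (round y : ℝ) := by exact_mod_cast h1
      linarith [hry.1]
    rw [mem_iUnion]
    refine ⟨⟨m, ⟨(round x).toNat, by omega⟩, ⟨(round y + N).toNat, by omega⟩⟩, ?_⟩
    have ex : (((round x).toNat : ℕ) : ℝ) = (round x : ℝ) := by
      have h1 : (((round x).toNat : ℕ) : ℤ) = round x := Int.toNat_of_nonneg hrx0
      have h2 : ((((round x).toNat : ℕ) : ℤ) : ℝ) = ((round x : ℤ) : ℝ) := by rw [h1]
      push_cast at h2
      exact_mod_cast h2
    have ey : (((round y + N).toNat : ℕ) : ℝ) = (round y : ℝ) + N := by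
      have h1 : (((round y + N).toNat : ℕ) : ℤ) = round y + N := Int.toNat_of_nonneg (by omega)
      have h2 : ((((round y + N).toNat : ℕ) : ℤ) : ℝ) = ((round y + N : ℤ) : ℝ) := by rw [h1]
      push_cast at h2
      exact_mod_cast h2
    refine ⟨r1.le, ?_, ?_, ?_⟩
    · have : 1 / (n : ℝ) / 2 = 1 / (2 * (n : ℝ)) := by field_simp
      rw [this]; exact r2
    · rw [abs_le]
      constructor
      · linarith
      · linarith
    · simp only
      rw [ex, ey]
      apply norm_le_of_round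
      · have e : (G ζ - (((k - 240 + (round x : ℝ) : ℝ) : ℂ)
            + (((round y : ℝ) + (N : ℝ) - (N : ℝ) : ℝ) : ℂ) * I)).re = x - round x := by
          simp only [sub_re, add_re, mul_re, ofReal_re, I_re, I_im, ofReal_im, mul_zero,
            mul_one, sub_zero, add_zero]
          rw [hx]; ring
        rw [e]; exact real_round
      · have e : (G ζ - (((k - 240 + (round x : ℝ) : ℝ) : ℂ)
            + (((round y : ℝ) + (N : ℝ) - (N : ℝ) : ℝ) : ℂ) * I)).im = y - round y := by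
          simp only [sub_im, add_im, mul_im, ofReal_re, I_re, I_im, ofReal_im, mul_zero,
            mul_one, add_zero, zero_add]
          rw [hy]; ring
        rw [e]; exact real_round
  -- one piece
  set x : ℝ := n * ρ with hx
  have hx1 : 1 ≤ x := by
    rw [hx]
    rw [div_le_iff₀ h0] at hρ
    linarith
  have hx0 : 0 < x := by linarith
  have hpiece : ∀ q, ∫⁻ ζ in S q, ENNReal.ofReal ‖deriv G ζ‖
      ≤ ENNReal.ofReal (C₂ * C₀ * (1 + Real.log n) * (1 / n) * (8 * x ^ δ)) := by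
    intro q
    have h1 := hcay δ C₀ (1 / (n : ℝ)) t (c q.1) G
      (((k - 240 + (q.2.1 : ℕ) : ℝ) : ℂ) + (((q.2.2 : ℕ) : ℝ) - (N : ℝ) : ℝ) * I)
      hδ0 hδ1 hC₀ hUnf hUn (by positivity) htn
    refine h1.trans (ENNReal.ofReal_le_ofReal ?_)
    have e1 : t / (1 / (n : ℝ)) = n * t := by field_simp
    rw [e1]
    have hnt1 : 1 ≤ n * t := by
      rw [div_le_iff₀ h0] at htn
      linarith
    have l1 : Real.log (n * t) ≤ Real.log n := by
      apply Real.log_le_log (by linarith)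
      nlinarith
    have l2 : (n * t) ^ δ ≤ 8 * x ^ δ := by
      calc (n * t) ^ δ ≤ (8 * x) ^ δ := by
            apply Real.rpow_le_rpow (by linarith) _ hδ0
            rw [hx]; nlinarith
        _ = 8 ^ δ * x ^ δ := Real.mul_rpow (by norm_num) hx0.le
        _ ≤ 8 * x ^ δ := by
            apply mul_le_mul_of_nonneg_right _ (by positivity)
            calc (8 : ℝ) ^ δ ≤ 8 ^ (1 : ℝ) :=
                  Real.rpow_le_rpow_of_exponent_le (by norm_num) hδ1
              _ = 8 := Real.rpow_one _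
    have l0 : 0 ≤ Real.log (n * t) := Real.log_nonneg hnt1
    have hC₀' : 0 ≤ C₀ := by linarith
    gcongr
  -- sum up
  have hbnd0 : 0 ≤ C₂ * C₀ * (1 + Real.log n) * (1 / n) * (8 * x ^ δ) := by
    have hC₀' : 0 ≤ C₀ := by linarith
    positivity
  have htotal : ∫⁻ ζ in R, ENNReal.ofReal ‖deriv G ζ‖
      ≤ ENNReal.ofReal ((4 * (482 * (2 * N + 1)) : ℝ)
        * (C₂ * C₀ * (1 + Real.log n) * (1 / n) * (8 * x ^ δ))) := by
    calc ∫⁻ ζ in R, ENNReal.ofReal ‖deriv G ζ‖
        ≤ ∫⁻ ζ in ⋃ q, S q, ENNReal.ofReal ‖deriv G ζ‖ := lintegral_mono_set hcovS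
      _ ≤ ∑' q, ∫⁻ ζ in S q, ENNReal.ofReal ‖deriv G ζ‖ := lintegral_iUnion_le _ _
      _ = ∑ q, ∫⁻ ζ in S q, ENNReal.ofReal ‖deriv G ζ‖ := tsum_fintype _
      _ ≤ ∑ _q : Fin 4 × Fin 482 × Fin (2 * N + 1),
            ENNReal.ofReal (C₂ * C₀ * (1 + Real.log n) * (1 / n) * (8 * x ^ δ)) :=
          Finset.sum_le_sum (fun q _ => hpiece q)
      _ = _ := by
          have e4 : ENNReal.ofReal ((4 * (482 * (2 * N + 1)) : ℝ)
              * (C₂ * C₀ * (1 + Real.log n) * (1 / n) * (8 * x ^ δ)))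
              = ENNReal.ofReal (4 * (482 * (2 * N + 1)) : ℝ)
                * ENNReal.ofReal (C₂ * C₀ * (1 + Real.log n) * (1 / n) * (8 * x ^ δ)) :=
            ENNReal.ofReal_mul (by positivity)
          rw [Finset.sum_const, Finset.card_univ, Fintype.card_prod, Fintype.card_prod,
            Fintype.card_fin, Fintype.card_fin, Fintype.card_fin, nsmul_eq_mul, e4]
          congr 1
          rw [← ENNReal.ofReal_natCast]
          congr 1
          push_cast
          ring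
  have hcomb : ENNReal.ofReal (∫ ζ in R, ‖deriv G ζ‖)
      ≤ ENNReal.ofReal ((4 * (482 * (2 * N + 1)) : ℝ)
        * (C₂ * C₀ * (1 + Real.log n) * (1 / n) * (8 * x ^ δ))) := by
    rw [ofReal_integral_eq_lintegral_ofReal hRint
      (Filter.Eventually.of_forall (fun ζ => norm_nonneg _))]
    exact htotal
  rw [ENNReal.ofReal_le_ofReal_iff (by positivity)] at hcomb
  rw [hsum]
  have hNY : 2 * (N : ℝ) + 1 ≤ (2 * C + 107) * (1 + Real.log n) := by
    have e1 : Real.log (2 * n) = Real.log 2 + Real.log n :=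
      Real.log_mul (by norm_num) h0.ne'
    have e2 := Real.log_two_lt_d9
    have e3 : Y = C + 30 * (Real.log 2 + Real.log n) := by rw [hY, e1]
    nlinarith
  have hC₀' : 0 ≤ C₀ := by linarith
  calc (n : ℝ) * ∫ ζ in R, ‖deriv G ζ‖
      ≤ n * ((4 * (482 * (2 * N + 1)) : ℝ)
        * (C₂ * C₀ * (1 + Real.log n) * (1 / n) * (8 * x ^ δ))) := by gcongr
    _ = 4 * 482 * 8 * C₂ * C₀ * (1 + Real.log n) * x ^ δ * (2 * N + 1) := by
        field_simp
    _ ≤ 4 * 482 * 8 * C₂ * C₀ * (1 + Real.log n) * x ^ δ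
          * ((2 * C + 107) * (1 + Real.log n)) := by
        gcongr
    _ = 4 * 482 * 8 * (2 * C + 107) * C₂ * C₀ * (1 + Real.log n) ^ 2 * x ^ δ := by ring

end Pool.Agent.Helper61.LT
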