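import Pool.Agent.Helper69.LT.St

set_option autoImplicit false

open scoped BigOperators
open Pool.LE Pool.NL

set_option linter.unusedSectionVars false

namespace Pool.LT
namespace AlgM

section Nrm

variable {ι : Type} [Fintype ι] [DecidableEq ι]

/-- weighted row sums are at most `c` -/
def NB (q : ι → ι → ℝ) (A : Matrix ι ι ℝ) (c : ℝ) : Prop :=
  ∀ i, ∑ j, q i j * |A i j| ≤ c

theorem NB.mul {q : ι → ι → ℝ} (hq : ∀ x y, 0 ≤ q x y)
    (hs : ∀ x y z, q x z ≤ q x y * q y z) {A B : Matrix ι ι ℝ} {c d : ℝ}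
    (hA : NB q A c) (hB : NB q B d) (hd : 0 ≤ d) : NB q (A * B) (c * d) := by
  intro i
  calc ∑ j, q i j * |(A * B) i j|
      ≤ ∑ j, ∑ k, (q i k * |A i k|) * (q k j * |B k j|) := by
        apply Finset.sum_le_sum
        intro j _
        rw [Matrix.mul_apply]
        calc q i j * |∑ k, A i k * B k j| ≤ q i j * ∑ k, |A i k * B k j| :=
              mul_le_mul_of_nonneg_left (Finset.abs_sum_le_sum_abs _ _) (hq i j)
          _ = ∑ k, q i j * (|A i k| * |B k j|) := by
              rw [Finset.mul_sum]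
              apply Finset.sum_congr rfl
              intro k _
              rw [abs_mul]
          _ ≤ ∑ k, (q i k * |A i k|) * (q k j * |B k j|) := by
              apply Finset.sum_le_sum
              intro k _
              have h1 := mul_le_mul_of_nonneg_right (hs i k j)
                (mul_nonneg (abs_nonneg (A i k)) (abs_nonneg (B k j)))
              nlinarith [h1]
    _ = ∑ k, (q i k * |A i k|) * ∑ j, q k j * |B k j| := by
        rw [Finset.sum_comm]
        apply Finset.sum_congr rfl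
        intro k _
        rw [Finset.mul_sum]
    _ ≤ ∑ k, (q i k * |A i k|) * d := by
        apply Finset.sum_le_sum
        intro k _
        exact mul_le_mul_of_nonneg_left (hB k) (mul_nonneg (hq i k) (abs_nonneg _))
    _ = (∑ k, q i k * |A i k|) * d := by rw [Finset.sum_mul]
    _ ≤ c * d := mul_le_mul_of_nonneg_right (hA i) hd

theorem NB.add {q : ι → ι → ℝ} (hq : ∀ x y, 0 ≤ q x y) {A B : Matrix ι ι ℝ} {c d : ℝ}
    (hA : NB q A c) (hB : NB q B d) : NB q (A + B) (c + d) := by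
  intro i
  calc ∑ j, q i j * |(A + B) i j| ≤ ∑ j, (q i j * |A i j| + q i j * |B i j|) := by
        apply Finset.sum_le_sum
        intro j _
        rw [← mul_add, Matrix.add_apply]
        exact mul_le_mul_of_nonneg_left (abs_add_le _ _) (hq i j)
    _ = ∑ j, q i j * |A i j| + ∑ j, q i j * |B i j| := Finset.sum_add_distrib
    _ ≤ c + d := add_le_add (hA i) (hB i)

theorem NB.neg {q : ι → ι → ℝ} {A : Matrix ι ι ℝ} {c : ℝ}
    (hA : NB q A c) : NB q (-A) c := by
  intro i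
  have h : ∑ j, q i j * |(-A) i j| = ∑ j, q i j * |A i j| := by
    apply Finset.sum_congr rfl
    intro j _
    rw [Matrix.neg_apply, abs_neg]
  rw [h]
  exact hA i

theorem NB.one {q : ι → ι → ℝ} {a : ℝ} (ha : ∀ x, q x x ≤ a) :
    NB q (1 : Matrix ι ι ℝ) a := by
  intro i
  have h : ∑ j, q i j * |(1 : Matrix ι ι ℝ) i j| = q i i := by
    rw [Finset.sum_eq_single i]
    · simp
    · intro j _ hj
      rw [Matrix.one_apply_ne (Ne.symm hj)]
      simp
    · intro h
      exact absurd (Finset.mem_univ i) h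
  rw [h]
  exact ha i

/-- inverse of a matrix close to the identity -/
theorem inv_near_one {q : ι → ι → ℝ} (hq1 : ∀ x y, 1 ≤ q x y)
    (hs : ∀ x y z, q x z ≤ q x y * q y z) {g : Matrix ι ι ℝ}
    (hg : NB q (g - 1) (1 / 2)) :
    ∃ n : Matrix ι ι ℝ, g * n = 1 ∧ n * g = 1 ∧ NB q (n - 1) 1 := by
  have hq : ∀ x y, 0 ≤ q x y := fun x y => le_trans zero_le_one (hq1 x y)
  have hdet : g.det ≠ 0 := by
    apply det_ne_zero_of_sum_row_lt_diag
    intro k
    have h1 : ∑ j, |(g - 1) k j| ≤ 1 / 2 := by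
      refine le_trans ?_ (hg k)
      apply Finset.sum_le_sum
      intro j _
      have h := mul_le_mul_of_nonneg_right (hq1 k j) (abs_nonneg ((g - 1) k j))
      rw [one_mul] at h
      exact h
    rw [← Finset.add_sum_erase Finset.univ _ (Finset.mem_univ k)] at h1
    have h2 : ∑ j ∈ Finset.univ.erase k, |(g - 1) k j| =
        ∑ j ∈ Finset.univ.erase k, ‖g k j‖ := by
      apply Finset.sum_congr rfl
      intro j hj
      rw [Matrix.sub_apply, Matrix.one_apply_ne (Ne.symm (Finset.ne_of_mem_erase hj)), sub_zero,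
        Real.norm_eq_abs]
    rw [h2, Matrix.sub_apply, Matrix.one_apply_eq] at h1
    rw [Real.norm_eq_abs]
    have h3 : 1 - |g k k| ≤ |g k k - 1| := by
      have := abs_sub_abs_le_abs_sub (1 : ℝ) (g k k)
      rw [abs_one, abs_sub_comm] at this
      exact this
    linarith
  have hu : IsUnit g.det := isUnit_iff_ne_zero.mpr hdet
  have hgn : g * g⁻¹ = 1 := Matrix.mul_nonsing_inv g hu
  have hng : g⁻¹ * g = 1 := Matrix.nonsing_inv_mul g hu
  refine ⟨g⁻¹, hgn, hng, ?_⟩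
  set n := g⁻¹ with hn
  -- n - 1 = -(g-1) - (g-1)(n-1)
  have hrec : n - 1 = -(g - 1) + -((g - 1) * (n - 1)) := by
    have : (g - 1) * (n - 1) = 1 - n - (g - 1) := by
      rw [sub_mul, mul_sub, one_mul, mul_one, hgn]
      abel
    rw [this]
    abel
  intro i
  -- take the maximal row sum
  obtain ⟨m, -, hm⟩ := Finset.exists_max_image Finset.univ
    (fun i => ∑ j, q i j * |(n - 1) i j|) ⟨i, Finset.mem_univ i⟩
  have hM : NB q (n - 1) (∑ j, q m j * |(n - 1) m j|) := fun i => hm i (Finset.mem_univ i)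
  have hM0 : 0 ≤ ∑ j, q m j * |(n - 1) m j| :=
    Finset.sum_nonneg (fun j _ => mul_nonneg (hq m j) (abs_nonneg _))
  have h5 : NB q (n - 1) (1 / 2 + 1 / 2 * ∑ j, q m j * |(n - 1) m j|) := by
    have h6 := NB.add hq (NB.neg hg) (NB.neg (NB.mul hq hs hg hM hM0))
    rw [← hrec] at h6
    exact h6
  have h7 := h5 m
  have h8 := hM i
  linarith

end Nrm

end AlgM

open AlgM

theorem hAlg : SAlg := by
  intro V _ L q G G' g₀ g₁ P₀ P₁ a C₀ C₁ η hq1 hs ha hC0 hC1 hη hG hG' hg0 hg1 hP0 hP1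
  let mk : (V → V → ℝ) → Matrix L L ℝ := fun F => Matrix.of (fun i j => F i.1 j.1)
  let Q : L → L → ℝ := fun i j => q i.1 j.1
  have hQ1 : ∀ x y : L, 1 ≤ Q x y := fun x y => hq1 _ _
  have hQ : ∀ x y : L, 0 ≤ Q x y := fun x y => le_trans zero_le_one (hq1 _ _)
  have hQs : ∀ x y z : L, Q x z ≤ Q x y * Q y z := fun x y z => hs _ _ _
  have hQa : ∀ x : L, Q x x ≤ a := fun x => ha _
  have hNB : ∀ (F : V → V → ℝ) (c : ℝ), (∀ v ∈ L, ∑ x ∈ L, q v x * |F v x| ≤ c) →
      NB Q (mk F) c := by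
    intro F c h i
    have h1 := h i.1 i.2
    rw [← Finset.sum_coe_sort] at h1
    exact h1
  have hg0' : NB Q (mk g₀ - 1) (1 / 2) := by
    intro i
    have h1 := hg0 i.1 i.2
    rw [← Finset.sum_coe_sort] at h1
    refine le_trans (le_of_eq ?_) h1
    apply Finset.sum_congr rfl
    intro j _
    have h2 : (mk g₀ - 1) i j = g₀ i.1 j.1 - if j.1 = i.1 then 1 else 0 := by
      rw [Matrix.sub_apply, Matrix.one_apply]
      by_cases h : i = j
      · subst h
        simp [mk]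
      · have h' : ¬ (j.1 = i.1) := fun e => h (Subtype.ext e.symm)
        simp [mk, h, h']
    rw [h2]
  obtain ⟨n, hgn, hng, hn1⟩ := inv_near_one hQ1 hQs hg0'
  have hn : NB Q n (a + 1) := by
    have h := NB.add hQ (NB.one hQa) hn1
    have e : (1 : Matrix L L ℝ) + (n - 1) = n := by abel
    rw [e] at h
    exact h
  have hGm : mk G = mk g₀ + mk P₀ * mk G := by
    ext i j
    have h := hG i.1 i.2 j.1 j.2
    rw [Matrix.add_apply, Matrix.mul_apply]
    rw [← Finset.sum_coe_sort] at h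
    exact h
  have hGm' : - mk G' = mk g₁ + (mk P₁ * mk G - mk P₀ * mk G') := by
    ext i j
    have h := hG' i.1 i.2 j.1 j.2
    rw [Finset.sum_sub_distrib, ← Finset.sum_coe_sort L (fun b => P₁ i.1 b * G b j.1),
      ← Finset.sum_coe_sort L (fun b => P₀ i.1 b * G' b j.1)] at h
    rw [Matrix.neg_apply, Matrix.add_apply, Matrix.sub_apply, Matrix.mul_apply, Matrix.mul_apply]
    exact h
  let Hm : Matrix L L ℝ := n * (1 - mk P₀)
  have h1P : (1 - mk P₀) * mk G = mk g₀ := by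
    rw [sub_mul, one_mul]
    exact sub_eq_iff_eq_add.mpr hGm
  have hHG : Hm * mk G = 1 := by
    rw [show Hm = n * (1 - mk P₀) from rfl, mul_assoc, h1P, hng]
  have hGH : mk G * Hm = 1 := mul_eq_one_comm.mp hHG
  have h1P' : (1 - mk P₀) * mk G' = -(mk g₁) - mk P₁ * mk G := by
    rw [sub_mul, one_mul]
    have e : mk G' = -(mk g₁ + (mk P₁ * mk G - mk P₀ * mk G')) := by
      rw [← hGm', neg_neg]
    have e2 : mk G' - mk P₀ * mk G' = -(mk g₁ + (mk P₁ * mk G - mk P₀ * mk G')) - mk P₀ * mk G' := by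
      rw [← e]
    rw [e2]
    abel
  let Sm : Matrix L L ℝ := n * (-(mk g₁ * Hm) + -(mk P₁))
  have hSG : mk G * Sm * mk G = mk G' := by
    have e1 : (-(mk g₁ * Hm) + -(mk P₁)) * mk G = (1 - mk P₀) * mk G' := by
      rw [h1P', add_mul, neg_mul, neg_mul, mul_assoc, hHG, mul_one]
      abel
    rw [mul_assoc, show Sm = n * (-(mk g₁ * Hm) + -(mk P₁)) from rfl, mul_assoc, e1,
      ← mul_assoc n, ← mul_assoc, show n * (1 - mk P₀) = Hm from rfl, hGH, one_mul]
  have hNH : ∀ i : L, ∑ j, Q i j * |Hm i j| ≤ (a + 1) * (a + C₀) := by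
    intro i
    have ha1 : 1 ≤ a := (hq1 i.1 i.1).trans (ha i.1)
    have h1 : NB Q (1 - mk P₀) (a + C₀) := by
      have h := NB.add hQ (NB.one hQa) (NB.neg (hNB P₀ C₀ hP0))
      rw [← sub_eq_add_neg] at h
      exact h
    exact NB.mul hQ hQs hn h1 (by linarith) i
  have hNS : ∀ i : L, ∑ j, Q i j * |Sm i j| ≤
      (a + 1) * (C₁ * η * ((a + 1) * (a + C₀)) + C₁ * η) := by
    intro i
    have ha1 : 1 ≤ a := (hq1 i.1 i.1).trans (ha i.1)
    have hpos : 0 ≤ (a + 1) * (a + C₀) := mul_nonneg (by linarith) (by linarith)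
    have hpos1 : 0 ≤ C₁ * η := mul_nonneg hC1 hη
    have h1 : NB Q (-(mk g₁ * Hm) + -(mk P₁)) (C₁ * η * ((a + 1) * (a + C₀)) + C₁ * η) :=
      NB.add hQ (NB.neg (NB.mul hQ hQs (hNB g₁ _ hg1) hNH hpos)) (NB.neg (hNB P₁ _ hP1))
    exact NB.mul hQ hQs hn h1 (add_nonneg (mul_nonneg hpos1 hpos) hpos1) i
  let ext : Matrix L L ℝ → V → V → ℝ := fun A u v =>
    if h : u ∈ L ∧ v ∈ L then A ⟨u, h.1⟩ ⟨v, h.2⟩ else 0
  have hext : ∀ (A : Matrix L L ℝ) (i j : L), ext A i.1 j.1 = A i j := by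
    intro A i j
    have h : (i.1 ∈ L ∧ j.1 ∈ L) := ⟨i.2, j.2⟩
    show (if h : i.1 ∈ L ∧ j.1 ∈ L then A ⟨i.1, h.1⟩ ⟨j.1, h.2⟩ else 0) = A i j
    rw [dif_pos h]
  have hext0 : ∀ (A : Matrix L L ℝ) (u v : V), (u ∉ L ∨ v ∉ L) → ext A u v = 0 := by
    intro A u v h
    show (if h : u ∈ L ∧ v ∈ L then A ⟨u, h.1⟩ ⟨v, h.2⟩ else 0) = 0
    rw [dif_neg]
    rintro ⟨h1, h2⟩
    rcases h with h | h
    · exact h h1
    · exact h h2
  refine ⟨ext Hm, ext Sm, ?_, ?_, ?_, ?_, ?_, ?_⟩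
  · intro u v h
    exact ⟨hext0 _ u v h, hext0 _ u v h⟩
  · intro u hu v hv
    rw [← Finset.sum_coe_sort L (fun z => ext Hm u z * G z v)]
    have h := congrFun (congrFun hHG ⟨u, hu⟩) ⟨v, hv⟩
    rw [Matrix.mul_apply, Matrix.one_apply] at h
    have e : (∑ z : L, ext Hm u z.1 * G z.1 v) = ∑ z : L, Hm ⟨u, hu⟩ z * mk G z ⟨v, hv⟩ := by
      apply Finset.sum_congr rfl
      intro z _
      rw [hext Hm ⟨u, hu⟩ z]
      rfl
    rw [e, h]
    by_cases huv : u = v
    · rw [if_pos huv, if_pos (Subtype.ext huv)]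
    · rw [if_neg huv, if_neg (fun e => huv (congrArg Subtype.val e))]
  · intro u hu v hv
    rw [← Finset.sum_coe_sort L (fun z => G u z * ext Hm z v)]
    have h := congrFun (congrFun hGH ⟨u, hu⟩) ⟨v, hv⟩
    rw [Matrix.mul_apply, Matrix.one_apply] at h
    have e : (∑ z : L, G u z.1 * ext Hm z.1 v) = ∑ z : L, mk G ⟨u, hu⟩ z * Hm z ⟨v, hv⟩ := by
      apply Finset.sum_congr rfl
      intro z _
      rw [hext Hm z ⟨v, hv⟩]
      rfl
    rw [e, h]
    by_cases huv : u = v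
    · rw [if_pos huv, if_pos (Subtype.ext huv)]
    · rw [if_neg huv, if_neg (fun e => huv (congrArg Subtype.val e))]
  · intro u hu v hv
    have h := congrFun (congrFun hSG ⟨u, hu⟩) ⟨v, hv⟩
    rw [Matrix.mul_apply] at h
    have e : G' u v = mk G' ⟨u, hu⟩ ⟨v, hv⟩ := rfl
    rw [e, ← h]
    rw [Finset.sum_comm]
    rw [← Finset.sum_coe_sort L (fun c => ∑ b ∈ L, G u b * ext Sm b c * G c v)]
    apply Finset.sum_congr rfl
    intro c _
    rw [Matrix.mul_apply, Finset.sum_mul]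
    rw [← Finset.sum_coe_sort L (fun b => G u b * ext Sm b c.1 * G c.1 v)]
    apply Finset.sum_congr rfl
    intro b _
    rw [hext Sm b c]
    rfl
  · intro u hu
    rw [← Finset.sum_coe_sort L (fun v => q u v * |ext Hm u v|)]
    refine le_trans (le_of_eq ?_) (hNH ⟨u, hu⟩)
    apply Finset.sum_congr rfl
    intro v _
    rw [hext Hm ⟨u, hu⟩ v]
  · intro u hu
    rw [← Finset.sum_coe_sort L (fun v => q u v * |ext Sm u v|)]
    refine le_trans (le_of_eq ?_) (hNS ⟨u, hu⟩)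
    apply Finset.sum_congr rfl
    intro v _
    rw [hext Sm ⟨u, hu⟩ v]

end Pool.LT
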